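import Mathlib

set_option autoImplicit false

open Filter Topology MeasureTheory
open scoped ENNReal NNReal

namespace Pool.Agent.Results.MP_b48a23_an.SmallDimension

/-- The space of sign sequences (`true` is `+1`, `false` is `-1`), indexed from `0`. -/
@[ext] structure Signs where
  /-- the underlying function -/
  val : ℕ → Bool

open Classical in
/-- The metric `ρ(x,y) = 2 ^ (-(i+1))`, `i` the first index (counted from `0`) with `x i ≠ y i`. -/
noncomputable def sdist (x y : Signs) : ℝ :=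
  if x = y then 0 else (1 / 2 : ℝ) ^ (PiNat.firstDiff x.val y.val + 1)

lemma sdist_self (x : Signs) : sdist x x = 0 := by simp [sdist]

lemma sdist_nonneg (x y : Signs) : 0 ≤ sdist x y := by
  unfold sdist; split <;> positivity

lemma sdist_comm (x y : Signs) : sdist x y = sdist y x := by
  unfold sdist
  by_cases h : x = y
  · subst h; rfl
  · rw [if_neg h, if_neg (Ne.symm h), PiNat.firstDiff_comm]

lemma sdist_triangle (x y z : Signs) : sdist x z ≤ sdist x y + sdist y z := by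
  by_cases hxz : x = z
  · subst hxz
    rw [sdist_self]
    exact add_nonneg (sdist_nonneg _ _) (sdist_nonneg _ _)
  by_cases hxy : x = y
  · subst hxy; rw [sdist_self, zero_add]
  by_cases hyz : y = z
  · subst hyz; rw [sdist_self, add_zero]
  have h := PiNat.min_firstDiff_le x.val y.val z.val (fun h => hxz (Signs.ext h))
  unfold sdist
  rw [if_neg hxz, if_neg hxy, if_neg hyz]
  rcases min_le_iff.1 h with h | h
  · have : (1 / 2 : ℝ) ^ (PiNat.firstDiff x.val z.val + 1) ≤ (1 / 2 : ℝ) ^ (PiNat.firstDiff x.val y.val + 1) :=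
      pow_le_pow_of_le_one (by norm_num) (by norm_num) (by omega)
    have h2 : (0 : ℝ) ≤ (1 / 2 : ℝ) ^ (PiNat.firstDiff y.val z.val + 1) := by positivity
    linarith
  · have : (1 / 2 : ℝ) ^ (PiNat.firstDiff x.val z.val + 1) ≤ (1 / 2 : ℝ) ^ (PiNat.firstDiff y.val z.val + 1) :=
      pow_le_pow_of_le_one (by norm_num) (by norm_num) (by omega)
    have h2 : (0 : ℝ) ≤ (1 / 2 : ℝ) ^ (PiNat.firstDiff x.val y.val + 1) := by positivity
    linarith

lemma eq_of_sdist (x y : Signs) (h : sdist x y = 0) : x = y := by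
  by_contra hne
  unfold sdist at h
  rw [if_neg hne] at h
  have : (0 : ℝ) < (1 / 2 : ℝ) ^ (PiNat.firstDiff x.val y.val + 1) := by positivity
  linarith

noncomputable instance : MetricSpace Signs where
  dist := sdist
  dist_self := sdist_self
  dist_comm := sdist_comm
  dist_triangle := sdist_triangle
  edist := fun x y => ENNReal.ofReal (sdist x y)
  edist_dist := fun _ _ => rfl
  eq_of_dist_eq_zero := fun {x y} h => eq_of_sdist x y h

lemma dist_le_of_agree (x y : Signs) (n : ℕ) (h : ∀ i, i < n → x.val i = y.val i) :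
    dist x y ≤ (1 / 2 : ℝ) ^ n := by
  change sdist x y ≤ _
  unfold sdist
  by_cases hxy : x = y
  · rw [if_pos hxy]; positivity
  · rw [if_neg hxy]
    refine pow_le_pow_of_le_one (by norm_num) (by norm_num) ?_
    have : n ≤ PiNat.firstDiff x.val y.val := by
      by_contra hc
      rw [not_le] at hc
      exact PiNat.apply_firstDiff_ne (fun h => hxy (Signs.ext h)) (h _ hc)
    omega

/-- the sign as a real number -/
def sg (b : Bool) : ℝ := if b then 1 else -1

lemma abs_sg (b : Bool) : |sg b| = 1 := by cases b <;> simp [sg]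

/-- `E_L`: the sign sequences `ε` for which the partial sums `∑_{n<N} ε_n a_n` converge to `L`. -/
def Attain {V : Type} [AddCommGroup V] [Module ℝ V] [TopologicalSpace V] (a : ℕ → V) (L : V) :
    Set Signs :=
  {ε | Tendsto (fun N => ∑ n ∈ Finset.range N, sg (ε.val n) • a n) atTop (𝓝 L)}

/-! ### The parameters -/

/-- the pair (start of stage `k`, exponent of stage `k`) -/
def NH : ℕ → ℕ × ℕ
  | 0 => (0, 0)
  | k + 1 =>
    (3 * ((NH k).1 + 16 * (k + 1) ^ 2 * ((NH k).1 + k + 1) * 2 ^ (NH k).2),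
      (NH k).1 + 16 * (k + 1) ^ 2 * ((NH k).1 + k + 1) * 2 ^ (NH k).2)

/-- start of stage `k` -/
def N (k : ℕ) : ℕ := (NH k).1
/-- exponent of the direction in stage `k` -/
def h (k : ℕ) : ℕ := (NH k).2
/-- length of the capacity block of stage `k` -/
def M (k : ℕ) : ℕ := 16 * (k + 1) ^ 2 * (N k + k + 1) * 2 ^ h k

lemma N_zero : N 0 = 0 := rfl
lemma h_zero : h 0 = 0 := rfl
lemma h_succ (k : ℕ) : h (k + 1) = N k + M k := rfl
lemma N_succ (k : ℕ) : N (k + 1) = 3 * h (k + 1) := rfl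
lemma N_succ' (k : ℕ) : N (k + 1) = N k + M k + 2 * h (k + 1) := by
  rw [N_succ, h_succ]; ring

lemma M_ge (k : ℕ) : 16 * (k + 1) ≤ M k := by
  unfold M
  have h1 : 1 ≤ 2 ^ h k := Nat.one_le_two_pow
  have h2 : 1 ≤ N k + k + 1 := by omega
  have h3 : k + 1 ≤ (k + 1) ^ 2 := Nat.le_self_pow (by norm_num) _
  calc 16 * (k + 1) = 16 * (k + 1) * 1 * 1 := by ring
    _ ≤ 16 * (k + 1) ^ 2 * (N k + k + 1) * 2 ^ h k := by gcongr

lemma N_strictMono : StrictMono N := by
  refine strictMono_nat_of_lt_succ fun k => ?_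
  rw [N_succ']
  have := M_ge k
  omega

lemma le_N (k : ℕ) : k ≤ N k := N_strictMono.le_apply

lemma h_lt (k : ℕ) : h k + 1 ≤ h (k + 1) := by
  rw [h_succ]
  have := M_ge k
  rcases k with _ | k
  · rw [h_zero]; omega
  · rw [N_succ]; omega

/-- the stage of the index `n` -/
def stage (n : ℕ) : ℕ := Nat.findGreatest (fun k => N k ≤ n) n

lemma stage_eq {k n : ℕ} (h1 : N k ≤ n) (h2 : n < N (k + 1)) : stage n = k := by
  unfold stage
  rw [Nat.findGreatest_eq_iff]
  refine ⟨(le_N k).trans h1, fun _ => h1, ?_⟩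
  intro j hj _ hc
  have : N (k + 1) ≤ N j := N_strictMono.monotone hj
  omega

lemma N_stage_le (n : ℕ) : N (stage n) ≤ n := by
  unfold stage
  have := @Nat.findGreatest_spec 0 (fun k => N k ≤ n) _ n (Nat.zero_le _) (by simp [N_zero])
  exact this

lemma lt_N_stage (n : ℕ) : n < N (stage n + 1) := by
  by_contra hc
  rw [not_lt] at hc
  have h1 : stage n + 1 ≤ n := (le_N _).trans hc
  have := Nat.le_findGreatest (P := fun k => N k ≤ n) h1 hc
  unfold stage at this
  omega

lemma tendsto_stage : Tendsto stage atTop atTop := by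
  refine tendsto_atTop.2 fun K => ?_
  filter_upwards [eventually_ge_atTop (N K)] with n hn
  by_contra hc
  rw [not_le] at hc
  have h1 := lt_N_stage n
  have h2 : N (stage n + 1) ≤ N K := N_strictMono.monotone hc
  omega

/-- the slope of stage `k` -/
noncomputable def th (k : ℕ) : ℝ := (1 / 2 : ℝ) ^ h k

lemma th_pos (k : ℕ) : 0 < th k := by unfold th; positivity

lemma th_le_one (k : ℕ) : th k ≤ 1 := pow_le_one₀ (by norm_num) (by norm_num)

lemma th_succ_le (k : ℕ) : th (k + 1) ≤ th k / 2 := by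
  unfold th
  calc (1 / 2 : ℝ) ^ h (k + 1) ≤ (1 / 2 : ℝ) ^ (h k + 1) :=
        pow_le_pow_of_le_one (by norm_num) (by norm_num) (h_lt k)
    _ = (1 / 2 : ℝ) ^ h k / 2 := by rw [pow_succ]; ring

/-- the difference of consecutive slopes -/
noncomputable def De (k : ℕ) : ℝ := th k - th (k + 1)

lemma De_ge (k : ℕ) : th k / 2 ≤ De k := by
  unfold De; linarith [th_succ_le k]

lemma De_pos (k : ℕ) : 0 < De k := lt_of_lt_of_le (by linarith [th_pos k]) (De_ge k)

lemma De_le_one (k : ℕ) : De k ≤ 1 := by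
  unfold De; linarith [th_le_one k, th_pos (k + 1)]

/-- the size in stage `k` -/
noncomputable def ta (k : ℕ) : ℝ := 1 / ((k : ℝ) + 1)

lemma ta_pos (k : ℕ) : 0 < ta k := by unfold ta; positivity

lemma ta_le_one (k : ℕ) : ta k ≤ 1 := by
  unfold ta
  rw [div_le_one (by positivity)]
  have : (0 : ℝ) ≤ k := Nat.cast_nonneg k
  linarith

/-- the first coordinates -/
noncomputable def tt (n : ℕ) : ℝ :=
  if n - N (stage n) < M (stage n) then ta (stage n)
  else ta (stage n) * (1 / 2 : ℝ) ^ (n - N (stage n) - M (stage n) + 1)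

lemma tt_pos (n : ℕ) : 0 < tt n := by
  unfold tt
  have := ta_pos (stage n)
  split <;> positivity

lemma tt_le (n : ℕ) : tt n ≤ ta (stage n) := by
  unfold tt
  split
  · exact le_rfl
  · have h1 := ta_pos (stage n)
    have h2 : (1 / 2 : ℝ) ^ (n - N (stage n) - M (stage n) + 1) ≤ 1 :=
      pow_le_one₀ (by norm_num) (by norm_num)
    nlinarith

lemma tt_le_one (n : ℕ) : tt n ≤ 1 := (tt_le n).trans (ta_le_one _)

lemma stage_cap {k j : ℕ} (hj : j < M k) : stage (N k + j) = k :=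
  stage_eq (by omega) (by rw [N_succ']; omega)

lemma stage_dy {k i : ℕ} (hi : i < 2 * h (k + 1)) : stage (N k + M k + i) = k :=
  stage_eq (by omega) (by rw [N_succ']; omega)

lemma tt_cap {k j : ℕ} (hj : j < M k) : tt (N k + j) = ta k := by
  unfold tt
  rw [stage_cap hj, if_pos (by omega)]

lemma tt_dy {k i : ℕ} (hi : i < 2 * h (k + 1)) :
    tt (N k + M k + i) = ta k * (1 / 2 : ℝ) ^ (i + 1) := by
  unfold tt
  rw [stage_dy hi, if_neg (by omega)]
  congr 3
  omega

/-- the planar sequence -/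
noncomputable def a (n : ℕ) : Fin 2 → ℝ := ![tt n, tt n * th (stage n)]

lemma tendsto_ta : Tendsto ta atTop (𝓝 0) := tendsto_one_div_add_atTop_nhds_zero_nat

lemma tendsto_tt : Tendsto tt atTop (𝓝 0) :=
  squeeze_zero (fun n => (tt_pos n).le) tt_le (tendsto_ta.comp tendsto_stage)

lemma tendsto_a : Tendsto a atTop (𝓝 0) := by
  rw [tendsto_pi_nhds]
  intro i
  fin_cases i
  · simpa [a] using tendsto_tt
  · have h1 : Tendsto (fun n => tt n * th (stage n)) atTop (𝓝 0) := by
      refine squeeze_zero (fun n => mul_nonneg (tt_pos n).le (th_pos _).le) (fun n => ?_) tendsto_tt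
      have := th_le_one (stage n)
      have := tt_pos n
      nlinarith
    simpa [a] using h1

/-- first coordinate of the partial sums -/
noncomputable def X (e : Signs) (n : ℕ) : ℝ := ∑ m ∈ Finset.range n, sg (e.val m) * tt m
/-- second coordinate of the partial sums -/
noncomputable def Y (e : Signs) (n : ℕ) : ℝ := ∑ m ∈ Finset.range n, sg (e.val m) * (tt m * th (stage m))

lemma X_succ (e : Signs) (n : ℕ) : X e (n + 1) = X e n + sg (e.val n) * tt n := by
  unfold X; rw [Finset.sum_range_succ]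
lemma Y_succ (e : Signs) (n : ℕ) : Y e (n + 1) = Y e n + sg (e.val n) * (tt n * th (stage n)) := by
  unfold Y; rw [Finset.sum_range_succ]

lemma mem_attain (e : Signs) (L : Fin 2 → ℝ) : e ∈ Attain a L ↔
    Tendsto (X e) atTop (𝓝 (L 0)) ∧ Tendsto (Y e) atTop (𝓝 (L 1)) := by
  unfold Attain
  rw [Set.mem_ofPred_eq, tendsto_pi_nhds, Fin.forall_fin_two]
  have h0 : (fun n => (∑ m ∈ Finset.range n, sg (e.val m) • a m) 0) = X e := by
    funext n; simp [X, a, Finset.sum_apply]
  have h1 : (fun n => (∑ m ∈ Finset.range n, sg (e.val m) • a m) 1) = Y e := by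
    funext n; simp [Y, a, Finset.sum_apply]
  rw [h0, h1]

lemma Y_eq (e : Signs) (k : ℕ) : ∀ n, N k ≤ n → n ≤ N (k + 1) →
    Y e n = Y e (N k) + th k * (X e n - X e (N k)) := by
  intro n hn
  induction n, hn using Nat.le_induction with
  | base => intro _; ring
  | succ n hn ih =>
    intro h2
    rw [Y_succ, X_succ, ih (by omega), stage_eq hn (by omega)]
    ring

/-- the residual at the start of stage `k` -/
noncomputable def Z (L : Fin 2 → ℝ) (e : Signs) (k : ℕ) : ℝ :=
  (L 1 - Y e (N k)) - (L 0 - X e (N k)) * th k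

lemma Z_succ (L : Fin 2 → ℝ) (e : Signs) (k : ℕ) :
    Z L e (k + 1) = Z L e k + (L 0 - X e (N (k + 1))) * De k := by
  unfold Z De
  rw [Y_eq e k (N (k + 1)) (N_strictMono.monotone (Nat.le_succ k)) le_rfl]
  ring

lemma L1_sub_Y (L : Fin 2 → ℝ) (e : Signs) (k n : ℕ) (h1 : N k ≤ n) (h2 : n ≤ N (k + 1)) :
    L 1 - Y e n = Z L e k + th k * (L 0 - X e n) := by
  unfold Z
  rw [Y_eq e k n h1 h2]
  ring

lemma abs_X_le (e : Signs) (n : ℕ) : |X e n| ≤ n := by
  unfold X
  refine (Finset.abs_sum_le_sum_abs _ _).trans ?_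
  calc ∑ m ∈ Finset.range n, |sg (e.val m) * tt m| ≤ ∑ m ∈ Finset.range n, (1 : ℝ) := by
        refine Finset.sum_le_sum fun m _ => ?_
        rw [abs_mul, abs_sg, one_mul, abs_of_pos (tt_pos m)]
        exact tt_le_one m
    _ = n := by simp

lemma abs_Y_le (e : Signs) (n : ℕ) : |Y e n| ≤ n := by
  unfold Y
  refine (Finset.abs_sum_le_sum_abs _ _).trans ?_
  calc ∑ m ∈ Finset.range n, |sg (e.val m) * (tt m * th (stage m))| ≤ ∑ m ∈ Finset.range n, (1 : ℝ) := by
        refine Finset.sum_le_sum fun m _ => ?_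
        rw [abs_mul, abs_sg, one_mul, abs_of_pos (mul_pos (tt_pos m) (th_pos _))]
        exact mul_le_one₀ (tt_le_one m) (th_pos _).le (th_le_one _)
    _ = n := by simp

/-! ### Every target is attained -/

/-- the target of the first coordinate in stage `k` -/
noncomputable def tgt (L : Fin 2 → ℝ) (x y : ℝ) (k : ℕ) : ℝ :=
  L 0 + ((L 1 - y) - (L 0 - x) * th k) / De k

/-- the greedy process: the two partial sums and the current target -/
noncomputable def st (L : Fin 2 → ℝ) : ℕ → ℝ × ℝ × ℝ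
  | 0 => (0, 0, tgt L 0 0 0)
  | n + 1 =>
    ((st L n).1 + (if (st L n).1 ≤ (st L n).2.2 then 1 else -1) * tt n,
      (st L n).2.1 + (if (st L n).1 ≤ (st L n).2.2 then 1 else -1) * (tt n * th (stage n)),
      if n + 1 = N (stage (n + 1)) then
        tgt L ((st L n).1 + (if (st L n).1 ≤ (st L n).2.2 then 1 else -1) * tt n)
          ((st L n).2.1 + (if (st L n).1 ≤ (st L n).2.2 then 1 else -1) * (tt n * th (stage n)))
          (stage (n + 1))
      else (st L n).2.2)

open Classical in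
/-- the greedy signs -/
noncomputable def eps (L : Fin 2 → ℝ) : Signs := ⟨fun n => decide ((st L n).1 ≤ (st L n).2.2)⟩

lemma sg_eps (L : Fin 2 → ℝ) (n : ℕ) :
    sg ((eps L).val n) = if (st L n).1 ≤ (st L n).2.2 then 1 else -1 := by
  unfold sg eps
  by_cases hc : (st L n).1 ≤ (st L n).2.2 <;> simp [hc]

lemma st_eq (L : Fin 2 → ℝ) (n : ℕ) : (st L n).1 = X (eps L) n ∧ (st L n).2.1 = Y (eps L) n := by
  induction n with
  | zero => simp [st, X, Y]
  | succ n ih =>
    rw [X_succ, Y_succ, sg_eps, ← ih.1, ← ih.2]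
    exact ⟨rfl, rfl⟩

/-- the target -/
noncomputable def G (L : Fin 2 → ℝ) (k : ℕ) : ℝ := tgt L (X (eps L) (N k)) (Y (eps L) (N k)) k

lemma G_eq (L : Fin 2 → ℝ) (k : ℕ) : G L k = L 0 + Z L (eps L) k / De k := rfl

lemma st_target (L : Fin 2 → ℝ) (k : ℕ) : ∀ n, N k ≤ n → n < N (k + 1) → (st L n).2.2 = G L k := by
  intro n hn
  induction n, hn using Nat.le_induction with
  | base =>
    intro _
    rcases k with _ | k
    · have : X (eps L) (N 0) = 0 := by simp [X, N_zero]
      have h2 : Y (eps L) (N 0) = 0 := by simp [Y, N_zero]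
      unfold G
      rw [this, h2, N_zero]
      rfl
    · have hpos : 0 < N (k + 1) := lt_of_le_of_lt (Nat.zero_le _) (N_strictMono (Nat.lt_succ_self k))
      obtain ⟨m, hm⟩ : ∃ m, N (k + 1) = m + 1 := ⟨N (k + 1) - 1, by omega⟩
      have hst : stage (m + 1) = k + 1 := by
        rw [← hm]; exact stage_eq le_rfl (N_strictMono (Nat.lt_succ_self _))
      unfold G
      have h1 := st_eq L (m + 1)
      rw [hm, ← h1.1, ← h1.2]
      have h3 : (st L (m + 1)).2.2 = if m + 1 = N (stage (m + 1)) then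
          tgt L (st L (m + 1)).1 (st L (m + 1)).2.1 (stage (m + 1)) else (st L m).2.2 := rfl
      rw [h3, hst, if_pos hm.symm]
  | succ n hn ih =>
    intro h2
    have hst : stage (n + 1) = k := stage_eq (by omega) h2
    have h3 : (st L (n + 1)).2.2 = if n + 1 = N (stage (n + 1)) then
          tgt L (st L (n + 1)).1 (st L (n + 1)).2.1 (stage (n + 1)) else (st L n).2.2 := rfl
    rw [h3, hst, if_neg (by omega)]
    exact ih (by omega)

lemma greedy (L : Fin 2 → ℝ) (k n : ℕ) (h1 : N k ≤ n) (h2 : n < N (k + 1)) :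
    |G L k - X (eps L) (n + 1)| = |(|G L k - X (eps L) n| - tt n)| := by
  rw [X_succ, sg_eps, (st_eq L n).1, st_target L k n h1 h2]
  split
  · next hle =>
    rw [abs_of_nonneg (sub_nonneg.2 hle)]
    congr 1; ring
  · next hlt =>
    rw [not_le] at hlt
    rw [abs_of_neg (sub_neg.2 hlt), ← abs_neg]
    congr 1; ring

lemma cap_bound (L : Fin 2 → ℝ) (k : ℕ) : ∀ j, j ≤ M k → |G L k - X (eps L) (N k + j)| ≤
    max (|G L k - X (eps L) (N k)| - j * ta k) (ta k) := by
  intro j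
  induction j with
  | zero => intro _; simp
  | succ j ih =>
    intro hj
    have h1 := ih (by omega)
    rw [← add_assoc, greedy L k (N k + j) (by omega) (by rw [N_succ']; omega), tt_cap (by omega)]
    have hta := ta_pos k
    push_cast
    rcases le_or_gt (ta k) |G L k - X (eps L) (N k + j)| with h2 | h2
    · rw [abs_of_nonneg (by linarith)]
      rcases le_max_iff.1 h1 with h3 | h3
      · exact le_max_of_le_left (by linarith)
      · exact le_max_of_le_right (by linarith)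
    · rw [abs_of_neg (by linarith)]
      have := abs_nonneg (G L k - X (eps L) (N k + j))
      exact le_max_of_le_right (by linarith)

lemma dy_bound (L : Fin 2 → ℝ) (k : ℕ) (h0 : |G L k - X (eps L) (N k + M k)| ≤ ta k) :
    ∀ i, i ≤ 2 * h (k + 1) → |G L k - X (eps L) (N k + M k + i)| ≤ ta k * (1 / 2 : ℝ) ^ i := by
  intro i
  induction i with
  | zero => intro _; simpa using h0
  | succ i ih =>
    intro hi
    have h1 := ih (by omega)
    rw [← add_assoc, greedy L k (N k + M k + i) (by omega) (by rw [N_succ']; omega),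
      tt_dy (by omega)]
    have h3 : ta k * (1 / 2 : ℝ) ^ i = 2 * (ta k * (1 / 2 : ℝ) ^ (i + 1)) := by
      rw [pow_succ]; ring
    rw [h3] at h1
    have h4 := abs_nonneg (G L k - X (eps L) (N k + M k + i))
    rw [abs_le]
    constructor <;> linarith

lemma gen_bound (L : Fin 2 → ℝ) (k : ℕ) : ∀ n, N k ≤ n → n ≤ N (k + 1) →
    |G L k - X (eps L) n| ≤ max |G L k - X (eps L) (N k)| (ta k) := by
  intro n hn
  induction n, hn using Nat.le_induction with
  | base => intro _; exact le_max_left _ _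
  | succ n hn ih =>
    intro h2
    have h1 := ih (by omega)
    rw [greedy L k n hn (by omega)]
    have h3 := tt_pos n
    have h4 := tt_le n
    rw [stage_eq hn (by omega)] at h4
    have h5 := abs_nonneg (G L k - X (eps L) n)
    rw [abs_le]
    constructor
    · have := le_max_right |G L k - X (eps L) (N k)| (ta k)
      linarith
    · linarith

lemma two_pow_h (k : ℕ) : 1 / De k ≤ 2 * 2 ^ h k := by
  have h1 := De_ge k
  have h2 : th k = 1 / 2 ^ h k := by unfold th; rw [one_div_pow]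
  have h3 : (0 : ℝ) < 2 ^ h k := by positivity
  rw [div_le_iff₀ (De_pos k)]
  have h4 : 2 * 2 ^ h k * (th k / 2) = 1 := by rw [h2]; field_simp
  have h5 : 2 * 2 ^ h k * (th k / 2) ≤ 2 * 2 ^ h k * De k := by gcongr
  linarith

lemma abs_Z_le (L : Fin 2 → ℝ) (e : Signs) (k : ℕ) : |Z L e k| ≤ |L 0| + |L 1| + 2 * N k := by
  unfold Z
  have h1 := abs_X_le e (N k)
  have h2 := abs_Y_le e (N k)
  have h3 : |(L 1 - Y e (N k)) - (L 0 - X e (N k)) * th k| ≤
      |L 1 - Y e (N k)| + |(L 0 - X e (N k)) * th k| := abs_sub _ _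
  have h4 : |(L 0 - X e (N k)) * th k| ≤ |L 0 - X e (N k)| := by
    rw [abs_mul, abs_of_pos (th_pos k)]
    exact mul_le_of_le_one_right (abs_nonneg _) (th_le_one k)
  have h5 : |L 1 - Y e (N k)| ≤ |L 1| + |Y e (N k)| := abs_sub _ _
  have h6 : |L 0 - X e (N k)| ≤ |L 0| + |X e (N k)| := abs_sub _ _
  linarith

lemma capacity (L : Fin 2 → ℝ) (k : ℕ) (hk : |L 0| + |L 1| ≤ k) :
    |G L k - X (eps L) (N k)| ≤ M k * ta k := by
  have h1 : |G L k - X (eps L) (N k)| ≤ |L 0| + |Z L (eps L) k| * (1 / De k) + N k := by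
    rw [G_eq]
    have h2 := abs_X_le (eps L) (N k)
    have h3 : |L 0 + Z L (eps L) k / De k - X (eps L) (N k)| ≤
        |L 0| + |Z L (eps L) k / De k| + |X (eps L) (N k)| :=
      (abs_sub _ _).trans (by gcongr; exact abs_add_le _ _)
    have h4 : |Z L (eps L) k / De k| = |Z L (eps L) k| * (1 / De k) := by
      rw [abs_div, abs_of_pos (De_pos k)]; ring
    rw [h4] at h3
    linarith
  have h5 := abs_Z_le L (eps L) k
  have h6 := two_pow_h k
  have hp : (1 : ℝ) ≤ 2 ^ h k := one_le_pow₀ (by norm_num)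
  have hN : (0 : ℝ) ≤ N k := Nat.cast_nonneg _
  have hk0 : (0 : ℝ) ≤ k := Nat.cast_nonneg _
  have hD : 0 ≤ 1 / De k := by have := De_pos k; positivity
  have h7 : |Z L (eps L) k| * (1 / De k) ≤ ((k : ℝ) + 2 * N k) * (2 * 2 ^ h k) := by
    refine mul_le_mul (by linarith) h6 hD (by positivity)
  have h8 : (M k : ℝ) * ta k = 16 * ((k : ℝ) + 1) * ((N k : ℝ) + k + 1) * 2 ^ h k := by
    unfold M ta
    push_cast
    field_simp
  rw [h8]
  have h9 : |L 0| ≤ k := by linarith [abs_nonneg (L 1)]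
  have h10 : |L 0| + ((k : ℝ) + 2 * N k) * (2 * 2 ^ h k) + N k ≤
      ((k : ℝ) + ((k : ℝ) + 2 * N k) * 2 + N k) * 2 ^ h k := by nlinarith
  have h11 : ((k : ℝ) + ((k : ℝ) + 2 * N k) * 2 + N k) ≤
      16 * ((k : ℝ) + 1) * ((N k : ℝ) + k + 1) := by nlinarith
  have h12 : ((k : ℝ) + ((k : ℝ) + 2 * N k) * 2 + N k) * 2 ^ h k ≤
      16 * ((k : ℝ) + 1) * ((N k : ℝ) + k + 1) * 2 ^ h k := by gcongr
  linarith

lemma end_bound (L : Fin 2 → ℝ) (k : ℕ) (hk : |L 0| + |L 1| ≤ k) :
    |G L k - X (eps L) (N (k + 1))| ≤ (1 / 2 : ℝ) ^ (2 * h (k + 1)) := by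
  have h1 := cap_bound L k (M k) le_rfl
  have h2 := capacity L k hk
  have h3 : |G L k - X (eps L) (N k + M k)| ≤ ta k := by
    refine h1.trans (max_le ?_ le_rfl)
    have := ta_pos k
    linarith
  have h4 := dy_bound L k h3 (2 * h (k + 1)) le_rfl
  rw [← N_succ'] at h4
  refine h4.trans ?_
  have h5 := ta_le_one k
  have h6 : (0 : ℝ) ≤ (1 / 2 : ℝ) ^ (2 * h (k + 1)) := by positivity
  nlinarith

lemma Z_bound (L : Fin 2 → ℝ) (k : ℕ) (hk : |L 0| + |L 1| ≤ k) :
    |Z L (eps L) (k + 1)| ≤ (1 / 2 : ℝ) ^ (2 * h (k + 1)) := by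
  have h1 : Z L (eps L) (k + 1) = (G L k - X (eps L) (N (k + 1))) * De k := by
    rw [Z_succ, G_eq]
    have := (De_pos k).ne'
    field_simp
    ring
  rw [h1, abs_mul, abs_of_pos (De_pos k)]
  exact (mul_le_of_le_one_right (abs_nonneg _) (De_le_one k)).trans (end_bound L k hk)

lemma G_bound (L : Fin 2 → ℝ) (k : ℕ) (hk : |L 0| + |L 1| ≤ k) :
    |G L (k + 1) - L 0| ≤ 2 * th (k + 1) := by
  have h1 : G L (k + 1) - L 0 = Z L (eps L) (k + 1) * (1 / De (k + 1)) := by
    rw [G_eq]; ring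
  have h0 : |1 / De (k + 1)| = 1 / De (k + 1) :=
    abs_of_pos (by have := De_pos (k + 1); positivity)
  rw [h1, abs_mul, h0]
  have h2 := Z_bound L k hk
  have h3 := two_pow_h (k + 1)
  have h4 : (0 : ℝ) ≤ 1 / De (k + 1) := by have := De_pos (k + 1); positivity
  calc |Z L (eps L) (k + 1)| * (1 / De (k + 1))
      ≤ (1 / 2 : ℝ) ^ (2 * h (k + 1)) * (2 * 2 ^ h (k + 1)) := mul_le_mul h2 h3 h4 (by positivity)
    _ = 2 * th (k + 1) := by
      unfold th
      rw [pow_mul', sq, one_div_pow]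
      field_simp

lemma th_anti : Antitone th := antitone_nat_of_succ_le fun k => by
  have := th_succ_le k; have := th_pos k; linarith

lemma X_close (L : Fin 2 → ℝ) (k : ℕ) (hk : |L 0| + |L 1| ≤ k) (n : ℕ) (h1 : N (k + 2) ≤ n)
    (h2 : n ≤ N (k + 3)) : |L 0 - X (eps L) n| ≤ 8 * th (k + 1) + ta (k + 2) := by
  have hk' : |L 0| + |L 1| ≤ ((k + 1 : ℕ) : ℝ) := by push_cast; linarith
  have a1 := G_bound L k hk
  have a2 := G_bound L (k + 1) hk'
  have a3 := end_bound L (k + 1) hk'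
  have a4 := gen_bound L (k + 2) n h1 h2
  have a5 : (1 / 2 : ℝ) ^ (2 * h (k + 1 + 1)) ≤ th (k + 2) := by
    unfold th
    exact pow_le_pow_of_le_one (by norm_num) (by norm_num) (by
      have : k + 1 + 1 = k + 2 := rfl
      rw [this]; omega)
  have a6 : th (k + 2) ≤ th (k + 1) := th_anti (Nat.le_succ _)
  have a7 : max |G L (k + 2) - X (eps L) (N (k + 2))| (ta (k + 2)) ≤
      |G L (k + 2) - X (eps L) (N (k + 2))| + ta (k + 2) :=
    max_le (by have := ta_pos (k + 2); linarith) (by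
      have := abs_nonneg (G L (k + 2) - X (eps L) (N (k + 2))); linarith)
  have a8 : |G L (k + 2) - X (eps L) (N (k + 2))| ≤
      |G L (k + 2) - L 0| + |G L (k + 1) - L 0| + |G L (k + 1) - X (eps L) (N (k + 2))| := by
    have e1 : G L (k + 2) - X (eps L) (N (k + 2)) = (G L (k + 2) - L 0) - (G L (k + 1) - L 0) +
        (G L (k + 1) - X (eps L) (N (k + 2))) := by ring
    rw [e1]
    refine (abs_add_le _ _).trans ?_
    gcongr
    exact abs_sub _ _
  have a9 : |L 0 - X (eps L) n| ≤ |G L (k + 2) - L 0| + |G L (k + 2) - X (eps L) n| := by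
    have e1 : L 0 - X (eps L) n = (G L (k + 2) - X (eps L) n) - (G L (k + 2) - L 0) := by ring
    rw [e1]
    have := abs_sub (G L (k + 2) - X (eps L) n) (G L (k + 2) - L 0)
    linarith
  have a10 : k + 1 + 1 = k + 2 := rfl
  rw [a10] at a2 a3
  have := th_pos (k + 1)
  linarith

lemma tendsto_th : Tendsto th atTop (𝓝 0) := by
  have h1 : Tendsto h atTop atTop := by
    refine tendsto_atTop_mono (fun k => ?_) tendsto_id
    induction k with
    | zero => exact Nat.zero_le _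
    | succ k ih =>
      have := h_lt k
      simp only [id] at ih ⊢
      omega
  exact (tendsto_pow_atTop_nhds_zero_of_lt_one (by norm_num) (by norm_num)).comp h1

lemma eps_mem (L : Fin 2 → ℝ) : eps L ∈ Attain a L := by
  rw [mem_attain]
  obtain ⟨K, hK⟩ := exists_nat_ge (|L 0| + |L 1|)
  have hb : Tendsto (fun n => 9 * th (stage n - 1) + ta (stage n)) atTop (𝓝 0) := by
    have h1 : Tendsto (fun n => stage n - 1) atTop atTop :=
      (tendsto_sub_atTop_nat 1).comp tendsto_stage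
    have h2 := ((tendsto_th.comp h1).const_mul 9).add (tendsto_ta.comp tendsto_stage)
    simpa using h2
  have hx : ∀ᶠ n in atTop, |L 0 - X (eps L) n| ≤ 8 * th (stage n - 1) + ta (stage n) := by
    filter_upwards [tendsto_stage.eventually_ge_atTop (K + 2)] with n hn
    obtain ⟨j, hj⟩ : ∃ j, stage n = j + 2 := ⟨stage n - 2, by omega⟩
    have hjK : |L 0| + |L 1| ≤ (j : ℝ) := by
      have : (K : ℝ) ≤ j := by
        have : K ≤ j := by omega
        exact_mod_cast this
      linarith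
    have h1 := N_stage_le n
    have h2 := lt_N_stage n
    rw [hj] at h1 h2
    have h3 := X_close L j hjK n h1 h2.le
    rw [hj]
    exact h3
  have hy : ∀ᶠ n in atTop, |L 1 - Y (eps L) n| ≤ 9 * th (stage n - 1) + ta (stage n) := by
    filter_upwards [tendsto_stage.eventually_ge_atTop (K + 2), hx] with n hn hxn
    obtain ⟨j, hj⟩ : ∃ j, stage n = j + 1 := ⟨stage n - 1, by omega⟩
    have hjK : |L 0| + |L 1| ≤ (j : ℝ) := by
      have : (K : ℝ) ≤ j := by
        have : K ≤ j := by omega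
        exact_mod_cast this
      linarith
    rw [L1_sub_Y L (eps L) (stage n) n (N_stage_le n) (lt_N_stage n).le]
    have h1 := Z_bound L j hjK
    rw [← hj] at h1
    have h2 : (1 / 2 : ℝ) ^ (2 * h (stage n)) ≤ th (stage n) := by
      unfold th
      exact pow_le_pow_of_le_one (by norm_num) (by norm_num) (by omega)
    have h3 : th (stage n) ≤ th (stage n - 1) := th_anti (Nat.sub_le _ _)
    have h4 : |th (stage n) * (L 0 - X (eps L) n)| ≤ |L 0 - X (eps L) n| := by
      rw [abs_mul, abs_of_pos (th_pos _)]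
      exact mul_le_of_le_one_left (abs_nonneg _) (th_le_one _)
    have h5 := abs_add_le (Z L (eps L) (stage n)) (th (stage n) * (L 0 - X (eps L) n))
    linarith
  constructor
  · rw [tendsto_iff_norm_sub_tendsto_zero]
    refine squeeze_zero' (Eventually.of_forall fun _ => norm_nonneg _) ?_ hb
    filter_upwards [hx] with n hn
    rw [Real.norm_eq_abs, abs_sub_comm]
    have := th_pos (stage n - 1)
    linarith
  · rw [tendsto_iff_norm_sub_tendsto_zero]
    refine squeeze_zero' (Eventually.of_forall fun _ => norm_nonneg _) ?_ hb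
    filter_upwards [hy] with n hn
    rw [Real.norm_eq_abs, abs_sub_comm]
    exact hn

/-! ### The dimension of `E_L` -/

/-- the members of `E_L` whose first coordinates stay within `1` of the target from stage `K` on -/
def EK (L : Fin 2 → ℝ) (K : ℕ) : Set Signs :=
  {e | e ∈ Attain a L ∧ ∀ n, N K ≤ n → |L 0 - X e n| ≤ 1}

lemma attain_subset (L : Fin 2 → ℝ) : Attain a L ⊆ ⋃ K, EK L K := by
  intro e he
  have h1 := ((mem_attain e L).1 he).1
  rw [Metric.tendsto_atTop] at h1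
  obtain ⟨n0, hn0⟩ := h1 1 one_pos
  refine Set.mem_iUnion.2 ⟨n0, he, fun n hn => ?_⟩
  have h2 := hn0 n ((le_N n0).trans hn)
  rw [Real.dist_eq, abs_sub_comm] at h2
  exact h2.le

lemma tendsto_Z (L : Fin 2 → ℝ) (e : Signs) (he : e ∈ Attain a L) :
    Tendsto (Z L e) atTop (𝓝 0) := by
  obtain ⟨h1, h2⟩ := (mem_attain e L).1 he
  have hN : Tendsto N atTop atTop := N_strictMono.tendsto_atTop
  have h3 := (tendsto_const_nhds (x := L 1)).sub (h2.comp hN)
  have h4 := ((tendsto_const_nhds (x := L 0)).sub (h1.comp hN)).mul tendsto_th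
  have h5 := h3.sub h4
  simp only [sub_self, mul_zero] at h5
  exact h5

lemma Z_small (L : Fin 2 → ℝ) (K : ℕ) (e : Signs) (he : e ∈ EK L K) (k : ℕ) (hk : K ≤ k) :
    |Z L e k| ≤ th k := by
  have hstep : ∀ m : ℕ, |Z L e k| ≤ |Z L e (k + m)| + (th k - th (k + m)) := by
    intro m
    induction m with
    | zero => simp
    | succ m ih =>
      have h1 := Z_succ L e (k + m)
      have h2 : |L 0 - X e (N (k + m + 1))| ≤ 1 :=
        he.2 _ (N_strictMono.monotone (by omega))
      have h3 : |(L 0 - X e (N (k + m + 1))) * De (k + m)| ≤ De (k + m) := by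
        rw [abs_mul, abs_of_pos (De_pos _)]
        exact mul_le_of_le_one_left (De_pos _).le h2
      have h4 : Z L e (k + m) = Z L e (k + m + 1) - (L 0 - X e (N (k + m + 1))) * De (k + m) := by
        rw [h1]; ring
      have h5 : |Z L e (k + m)| ≤ |Z L e (k + m + 1)| +
          |(L 0 - X e (N (k + m + 1))) * De (k + m)| := by
        rw [h4]; exact abs_sub _ _
      have h6 : De (k + m) = th (k + m) - th (k + m + 1) := rfl
      rw [← add_assoc]
      linarith
  have hlim : Tendsto (fun m => |Z L e (k + m)| + th k) atTop (𝓝 (0 + th k)) := by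
    have h1 : Tendsto (fun m => Z L e (k + m)) atTop (𝓝 0) :=
      (tendsto_Z L e he.1).comp (tendsto_add_atTop_nat k |>.congr fun m => by ring)
    have h2 := h1.abs
    rw [abs_zero] at h2
    exact h2.add tendsto_const_nhds
  rw [zero_add] at hlim
  refine ge_of_tendsto' hlim fun m => ?_
  have := hstep m
  have := th_pos (k + m)
  linarith

/-- the signed dyadic sum -/
noncomputable def D {R : ℕ} (v : Fin R → Bool) : ℝ := ∑ i : Fin R, sg (v i) * (1 / 2 : ℝ) ^ ((i : ℕ) + 1)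

/-- its integer form -/
def Kint {R : ℕ} (v : Fin R → Bool) : ℤ :=
  ∑ i : Fin R, (if v i then 1 else -1) * 2 ^ (R - 1 - (i : ℕ))

lemma Kint_succ {R : ℕ} (v : Fin (R + 1) → Bool) :
    Kint v = (if v 0 then 1 else -1) * 2 ^ R + Kint (fun i : Fin R => v i.succ) := by
  unfold Kint
  rw [Fin.sum_univ_succ]
  congr 1
  refine Finset.sum_congr rfl fun i _ => ?_
  congr 2
  simp only [Fin.val_succ]
  omega

lemma abs_Kint_lt {R : ℕ} (v : Fin R → Bool) : |Kint v| < 2 ^ R := by
  induction R with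
  | zero => simp [Kint]
  | succ R ih =>
    rw [Kint_succ, pow_succ]
    have h1 := ih (fun i : Fin R => v i.succ)
    rw [abs_lt] at h1 ⊢
    split <;> constructor <;> linarith [h1.1, h1.2]

lemma Kint_injective {R : ℕ} : Function.Injective (Kint : (Fin R → Bool) → ℤ) := by
  induction R with
  | zero => intro v w _; exact Subsingleton.elim _ _
  | succ R ih =>
    intro v w hvw
    rw [Kint_succ, Kint_succ] at hvw
    have h1 := abs_Kint_lt (fun i : Fin R => v i.succ)
    have h2 := abs_Kint_lt (fun i : Fin R => w i.succ)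
    rw [abs_lt] at h1 h2
    have h0 : v 0 = w 0 := by
      cases hv : v 0 <;> cases hw : w 0 <;> simp only [hv, hw, if_true] at hvw ⊢
      · exfalso; simp at hvw; linarith [h1.1, h1.2, h2.1, h2.2]
      · exfalso; simp at hvw; linarith [h1.1, h1.2, h2.1, h2.2]
    rw [h0] at hvw
    have h3 := ih (add_left_cancel hvw)
    funext i
    refine Fin.cases h0 (fun j => ?_) i
    exact congrFun h3 j

lemma D_eq {R : ℕ} (v : Fin R → Bool) : D v * 2 ^ R = (Kint v : ℝ) := by
  unfold D Kint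
  rw [Finset.sum_mul]
  push_cast
  refine Finset.sum_congr rfl fun i _ => ?_
  have h1 : (2 : ℝ) ^ R = 2 ^ ((i : ℕ) + 1) * 2 ^ (R - 1 - (i : ℕ)) := by
    rw [← pow_add]; congr 1; have := i.2; omega
  rw [h1, one_div_pow]
  unfold sg
  field_simp

lemma count {R : ℕ} (S : Finset (Fin R → Bool)) (c ρ : ℝ) (hρ : 0 ≤ ρ)
    (hS : ∀ v ∈ S, |D v - c| ≤ ρ) : (S.card : ℝ) ≤ 2 * ρ * 2 ^ R + 1 := by
  have hp : (0 : ℝ) < 2 ^ R := by positivity
  have h1 : S.image Kint ⊆ Finset.Icc ⌈(c - ρ) * 2 ^ R⌉ ⌊(c + ρ) * 2 ^ R⌋ := by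
    intro m hm
    obtain ⟨v, hv, rfl⟩ := Finset.mem_image.1 hm
    have h2 := abs_le.1 (hS v hv)
    rw [Finset.mem_Icc, Int.ceil_le, Int.le_floor, ← D_eq]
    constructor
    · exact mul_le_mul_of_nonneg_right (by linarith [h2.1]) hp.le
    · exact mul_le_mul_of_nonneg_right (by linarith [h2.2]) hp.le
  have h2 := Finset.card_le_card h1
  rw [Finset.card_image_of_injective _ Kint_injective, Int.card_Icc] at h2
  have h3 : (S.card : ℤ) ≤ max (⌊(c + ρ) * 2 ^ R⌋ + 1 - ⌈(c - ρ) * 2 ^ R⌉) 0 := by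
    rw [← Int.ofNat_toNat]
    exact_mod_cast h2
  have h4 : (S.card : ℝ) ≤ max ((⌊(c + ρ) * 2 ^ R⌋ : ℝ) + 1 - (⌈(c - ρ) * 2 ^ R⌉ : ℝ)) 0 := by
    exact_mod_cast h3
  refine h4.trans (max_le ?_ (by positivity))
  have h5 := Int.floor_le ((c + ρ) * 2 ^ R)
  have h6 := Int.le_ceil ((c - ρ) * 2 ^ R)
  linarith

/-- a cylinder of length `3 * h (k+1)` -/
def Cyl (k : ℕ) (u : Fin (h (k + 1)) → Bool) (v : Fin (2 * h (k + 1)) → Bool) : Set Signs :=
  {e | (∀ i : Fin (h (k + 1)), e.val i = u i) ∧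
    ∀ i : Fin (2 * h (k + 1)), e.val (h (k + 1) + i) = v i}

lemma X_cyl (k : ℕ) (u : Fin (h (k + 1)) → Bool) (v : Fin (2 * h (k + 1)) → Bool) (e : Signs)
    (he : e ∈ Cyl k u v) : X e (N (k + 1)) = X e (h (k + 1)) + ta k * D v := by
  have h1 : N (k + 1) = h (k + 1) + 2 * h (k + 1) := by rw [N_succ]; ring
  unfold X
  rw [h1, Finset.sum_range_add, Finset.sum_range (n := 2 * h (k + 1))]
  congr 1
  unfold D
  rw [Finset.mul_sum]
  refine Finset.sum_congr rfl fun i _ => ?_
  rw [he.2 i]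
  have h2 : h (k + 1) + (i : ℕ) = N k + M k + i := by
    have h3 : h (k + 1) = N k + M k := h_succ k
    omega
  rw [h2, tt_dy i.2]
  ring

lemma X_congr (e e' : Signs) (n : ℕ) (hh : ∀ i, i < n → e.val i = e'.val i) : X e n = X e' n := by
  unfold X
  refine Finset.sum_congr rfl fun m hm => ?_
  rw [hh m (Finset.mem_range.1 hm)]

lemma Y_congr (e e' : Signs) (n : ℕ) (hh : ∀ i, i < n → e.val i = e'.val i) : Y e n = Y e' n := by
  unfold Y
  refine Finset.sum_congr rfl fun m hm => ?_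
  rw [hh m (Finset.mem_range.1 hm)]

open Classical in
lemma count_fiber (L : Fin 2 → ℝ) (K k : ℕ) (hk : K ≤ k) (u : Fin (h (k + 1)) → Bool) :
    ((Finset.univ.filter fun v : Fin (2 * h (k + 1)) → Bool =>
      (Cyl k u v ∩ EK L K).Nonempty).card : ℝ) ≤
      5 * ((k : ℝ) + 1) * 2 ^ h k * 2 ^ h (k + 1) := by
  by_cases hne : (Finset.univ.filter fun v : Fin (2 * h (k + 1)) → Bool =>
      (Cyl k u v ∩ EK L K).Nonempty).Nonempty
  · obtain ⟨v0, hv0⟩ := hne
    rw [Finset.mem_filter] at hv0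
    obtain ⟨e0, he0, he0K⟩ := hv0.2
    have hDe := De_pos k
    have hta := ta_pos k
    have hth := th_pos (k + 1)
    have hc := count (Finset.univ.filter fun v : Fin (2 * h (k + 1)) → Bool =>
      (Cyl k u v ∩ EK L K).Nonempty) ((Z L e0 k / De k + L 0 - X e0 (h (k + 1))) / ta k)
      (th (k + 1) * (1 / De k) * (1 / ta k)) (by positivity) (by
        intro v hv
        rw [Finset.mem_filter] at hv
        obtain ⟨e, he, heK⟩ := hv.2
        have hagree : ∀ i, i < h (k + 1) → e.val i = e0.val i := by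
          intro i hi
          have h1 := he.1 ⟨i, hi⟩
          have h2 := he0.1 ⟨i, hi⟩
          simp only at h1 h2
          rw [h1, h2]
        have hNk : N k ≤ h (k + 1) := by rw [h_succ]; omega
        have hX : X e (h (k + 1)) = X e0 (h (k + 1)) := X_congr _ _ _ hagree
        have hZ : Z L e k = Z L e0 k := by
          unfold Z
          rw [X_congr e e0 (N k) (fun i hi => hagree i (by omega)),
            Y_congr e e0 (N k) (fun i hi => hagree i (by omega))]
        have h1 := Z_small L K e heK (k + 1) (by omega)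
        rw [Z_succ, X_cyl k u v e he, hX, hZ] at h1
        have h2 : Z L e0 k + (L 0 - (X e0 (h (k + 1)) + ta k * D v)) * De k =
            -((D v - (Z L e0 k / De k + L 0 - X e0 (h (k + 1))) / ta k) * (De k * ta k)) := by
          field_simp
          ring
        rw [h2, abs_neg, abs_mul, abs_of_pos (mul_pos hDe hta)] at h1
        have h3 : th (k + 1) * (1 / De k) * (1 / ta k) = th (k + 1) / (De k * ta k) := by
          field_simp
        rw [h3, le_div_iff₀ (mul_pos hDe hta)]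
        exact h1)
    refine hc.trans ?_
    have h1 := two_pow_h k
    have h2 : 1 / ta k = (k : ℝ) + 1 := by unfold ta; rw [one_div_one_div]
    have h3 : th (k + 1) * 2 ^ (2 * h (k + 1)) = 2 ^ h (k + 1) := by
      unfold th
      rw [pow_mul', sq, one_div_pow]
      field_simp
    have h4 : 2 * (th (k + 1) * (1 / De k) * (1 / ta k)) * 2 ^ (2 * h (k + 1)) =
        2 * (1 / De k) * ((k : ℝ) + 1) * 2 ^ h (k + 1) := by
      rw [← h3, h2]; ring
    rw [h4]
    have hk0 : (0 : ℝ) ≤ k := Nat.cast_nonneg _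
    have h5 : 2 * (1 / De k) * ((k : ℝ) + 1) * 2 ^ h (k + 1) ≤
        2 * (2 * 2 ^ h k) * ((k : ℝ) + 1) * 2 ^ h (k + 1) := by gcongr
    have h6 : (1 : ℝ) ≤ ((k : ℝ) + 1) * 2 ^ h k * 2 ^ h (k + 1) := by
      have e1 : (1 : ℝ) ≤ 2 ^ h k := one_le_pow₀ (by norm_num)
      have e2 : (1 : ℝ) ≤ 2 ^ h (k + 1) := one_le_pow₀ (by norm_num)
      have e3 : (1 : ℝ) ≤ (k : ℝ) + 1 := by linarith
      calc (1 : ℝ) = 1 * 1 * 1 := by norm_num
        _ ≤ _ := by gcongr
    nlinarith
  · rw [Finset.not_nonempty_iff_eq_empty] at hne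
    rw [hne]
    simp only [Finset.card_empty, Nat.cast_zero]
    positivity

/-- the admissible words -/
def Adm (L : Fin 2 → ℝ) (K k : ℕ) : Type :=
  {p : (Fin (h (k + 1)) → Bool) × (Fin (2 * h (k + 1)) → Bool) // (Cyl k p.1 p.2 ∩ EK L K).Nonempty}

open Classical in
noncomputable instance (L : Fin 2 → ℝ) (K k : ℕ) : Fintype (Adm L K k) :=
  Subtype.fintype _

lemma card_Adm (L : Fin 2 → ℝ) (K k : ℕ) (hk : K ≤ k) : (Fintype.card (Adm L K k) : ℝ) ≤
    5 * ((k : ℝ) + 1) * 2 ^ h k * 2 ^ (2 * h (k + 1)) := by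
  classical
  have h1 : Fintype.card (Adm L K k) = ∑ u : Fin (h (k + 1)) → Bool,
      (Finset.univ.filter fun v : Fin (2 * h (k + 1)) → Bool =>
        (Cyl k u v ∩ EK L K).Nonempty).card := by
    have e1 : Fintype.card (Adm L K k) = (Finset.univ.filter fun p : (Fin (h (k + 1)) → Bool) ×
        (Fin (2 * h (k + 1)) → Bool) => (Cyl k p.1 p.2 ∩ EK L K).Nonempty).card := by
      have e2 := Fintype.card_subtype (fun p : (Fin (h (k + 1)) → Bool) ×
        (Fin (2 * h (k + 1)) → Bool) => (Cyl k p.1 p.2 ∩ EK L K).Nonempty)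
      rw [← e2]
      exact Fintype.card_congr (Equiv.refl _)
    rw [e1, Finset.card_filter, Fintype.sum_prod_type]
    refine Finset.sum_congr rfl fun u _ => ?_
    rw [Finset.card_filter]
  rw [h1]
  push_cast
  calc ∑ u : Fin (h (k + 1)) → Bool, ((Finset.univ.filter fun v : Fin (2 * h (k + 1)) → Bool =>
        (Cyl k u v ∩ EK L K).Nonempty).card : ℝ)
      ≤ ∑ _u : Fin (h (k + 1)) → Bool, 5 * ((k : ℝ) + 1) * 2 ^ h k * 2 ^ h (k + 1) :=
        Finset.sum_le_sum fun u _ => count_fiber L K k hk u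
    _ = 5 * ((k : ℝ) + 1) * 2 ^ h k * 2 ^ (2 * h (k + 1)) := by
      rw [Finset.sum_const, Finset.card_univ, Fintype.card_fun, Fintype.card_bool, Fintype.card_fin,
        nsmul_eq_mul]
      push_cast
      ring

lemma ediam_Cyl (k : ℕ) (u : Fin (h (k + 1)) → Bool) (v : Fin (2 * h (k + 1)) → Bool) :
    Metric.ediam (Cyl k u v) ≤ ENNReal.ofReal ((1 / 2 : ℝ) ^ (3 * h (k + 1))) := by
  refine Metric.ediam_le fun x hx y hy => ?_
  rw [edist_dist]
  refine ENNReal.ofReal_le_ofReal (dist_le_of_agree x y _ fun i hi => ?_)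
  rcases lt_or_ge i (h (k + 1)) with h1 | h1
  · have e1 := hx.1 ⟨i, h1⟩
    have e2 := hy.1 ⟨i, h1⟩
    simp only at e1 e2
    rw [e1, e2]
  · have e1 := hx.2 ⟨i - h (k + 1), by omega⟩
    have e2 := hy.2 ⟨i - h (k + 1), by omega⟩
    simp only at e1 e2
    have e3 : h (k + 1) + (i - h (k + 1)) = i := by omega
    rw [e3] at e1 e2
    rw [e1, e2]

lemma h_ge (k : ℕ) : 4 * (h k + 2 * k + 4) ≤ h (k + 1) := by
  rw [h_succ]
  have h1 : 1 ≤ 2 ^ h k := Nat.one_le_two_pow
  have h2 : h k ≤ N k := by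
    rcases k with _ | k
    · simp [N_zero, h_zero]
    · rw [N_succ]; omega
  have h3 : 16 * (N k + k + 1) ≤ M k := by
    unfold M
    have h4 : 1 ≤ (k + 1) ^ 2 := Nat.one_le_pow _ _ (by omega)
    calc 16 * (N k + k + 1) = 16 * 1 * (N k + k + 1) * 1 := by ring
      _ ≤ 16 * (k + 1) ^ 2 * (N k + k + 1) * 2 ^ h k := by gcongr
  omega

lemma sum_bound (k : ℕ) : (5 * ((k : ℝ) + 1) * 2 ^ h k * 2 ^ (2 * h (k + 1))) *
    ((1 / 2 : ℝ) ^ (3 * h (k + 1))) ^ ((3 / 4 : ℝ)) ≤ (1 / 2 : ℝ) ^ k := by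
  set H := h (k + 1) with hH
  have h1 : ((1 / 2 : ℝ) ^ (3 * H)) ^ ((3 / 4 : ℝ)) = (2 : ℝ) ^ (-((9 / 4 : ℝ) * H)) := by
    rw [← Real.rpow_natCast, ← Real.rpow_mul (by norm_num), one_div, Real.inv_rpow (by norm_num),
      ← Real.rpow_neg (by norm_num)]
    congr 1
    push_cast
    ring
  have h2 : (2 : ℝ) ^ (2 * H) = (2 : ℝ) ^ ((2 : ℝ) * H) := by
    rw [← Real.rpow_natCast]; push_cast; rfl
  have h3 : (2 : ℝ) ^ h k = (2 : ℝ) ^ ((h k : ℕ) : ℝ) := (Real.rpow_natCast _ _).symm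
  have hge : (4 * (h k + 2 * k + 4) : ℝ) ≤ H := by exact_mod_cast h_ge k
  have h4 : (5 * ((k : ℝ) + 1) * 2 ^ h k * 2 ^ (2 * H)) * ((1 / 2 : ℝ) ^ (3 * H)) ^ ((3 / 4 : ℝ)) =
      5 * ((k : ℝ) + 1) * (2 : ℝ) ^ (((h k : ℕ) : ℝ) - H / 4) := by
    rw [h1, h2, h3]
    have e1 : (2 : ℝ) ^ (((h k : ℕ) : ℝ) - H / 4) = (2 : ℝ) ^ ((h k : ℕ) : ℝ) *
        (2 : ℝ) ^ ((2 : ℝ) * H) * (2 : ℝ) ^ (-((9 / 4 : ℝ) * H)) := by
      rw [← Real.rpow_add (by norm_num), ← Real.rpow_add (by norm_num)]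
      congr 1
      ring
    rw [e1]
    ring
  rw [h4]
  have h5 : (2 : ℝ) ^ (((h k : ℕ) : ℝ) - H / 4) ≤ (2 : ℝ) ^ (-(2 * (k : ℝ) + 4)) := by
    apply Real.rpow_le_rpow_of_exponent_le (by norm_num)
    linarith
  have h6 : (2 : ℝ) ^ (-(2 * (k : ℝ) + 4)) = (1 / 2 : ℝ) ^ k * (1 / 2 : ℝ) ^ k * (1 / 16) := by
    rw [Real.rpow_neg (by norm_num), Real.rpow_add (by norm_num), one_div_pow]
    have e1 : (2 : ℝ) ^ (2 * (k : ℝ)) = 2 ^ k * 2 ^ k := by
      rw [show (2 * (k : ℝ)) = ((2 * k : ℕ) : ℝ) by push_cast; ring, Real.rpow_natCast]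
      rw [two_mul, pow_add]
    have e2 : (2 : ℝ) ^ (4 : ℝ) = 16 := by
      rw [show (4 : ℝ) = ((4 : ℕ) : ℝ) by norm_num, Real.rpow_natCast]; norm_num
    rw [e1, e2]
    field_simp
  rw [h6] at h5
  have h7 : ((k : ℝ) + 1) * (1 / 2 : ℝ) ^ k ≤ 1 := by
    have e1 : (k : ℝ) + 1 ≤ 2 ^ k := by
      have : k + 1 ≤ 2 ^ k := Nat.lt_two_pow_self
      exact_mod_cast this
    rw [one_div_pow, mul_one_div, div_le_one (by positivity)]
    exact e1
  have hp : (0 : ℝ) < (1 / 2 : ℝ) ^ k := by positivity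
  have hk0 : (0 : ℝ) ≤ k := Nat.cast_nonneg _
  calc 5 * ((k : ℝ) + 1) * (2 : ℝ) ^ (((h k : ℕ) : ℝ) - H / 4)
      ≤ 5 * ((k : ℝ) + 1) * ((1 / 2 : ℝ) ^ k * (1 / 2 : ℝ) ^ k * (1 / 16)) := by gcongr
    _ = (5 / 16) * (((k : ℝ) + 1) * (1 / 2 : ℝ) ^ k) * (1 / 2 : ℝ) ^ k := by ring
    _ ≤ (5 / 16) * 1 * (1 / 2 : ℝ) ^ k := by gcongr
    _ ≤ _ := by linarith

lemma dimH_EK (L : Fin 2 → ℝ) (K : ℕ) : dimH (EK L K) ≤ ((3 / 4 : ℝ≥0) : ℝ≥0∞) := by
  borelize Signs
  refine dimH_le_of_hausdorffMeasure_ne_top ?_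
  have hr : Tendsto (fun k : ℕ => ENNReal.ofReal ((1 / 2 : ℝ) ^ (3 * h (k + 1)))) atTop (𝓝 0) := by
    have h1 : Tendsto (fun k : ℕ => (1 / 2 : ℝ) ^ (3 * h (k + 1))) atTop (𝓝 0) := by
      refine squeeze_zero (fun _ => by positivity) (fun k => ?_)
        (tendsto_pow_atTop_nhds_zero_of_lt_one (r := (1 / 2 : ℝ)) (by norm_num) (by norm_num))
      refine pow_le_pow_of_le_one (by norm_num) (by norm_num) ?_
      have := h_ge k
      omega
    have h2 := ENNReal.tendsto_ofReal h1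
    simpa using h2
  have hmain := Measure.hausdorffMeasure_le_liminf_sum (ι := Adm L K) ((3 / 4 : ℝ≥0) : ℝ) (EK L K)
    (l := atTop) _ hr (fun k p => Cyl k p.1.1 p.1.2)
    (Eventually.of_forall fun k p => ediam_Cyl k _ _)
    (Eventually.of_forall fun k => by
      intro e he
      rw [Set.mem_iUnion]
      exact ⟨⟨(fun i => e.val i, fun i => e.val (h (k + 1) + i)), ⟨e, ⟨fun _ => rfl, fun _ => rfl⟩, he⟩⟩,
        ⟨fun _ => rfl, fun _ => rfl⟩⟩)
  have hz : Tendsto (fun k => ∑ i : Adm L K k, Metric.ediam (Cyl k i.1.1 i.1.2) ^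
      ((3 / 4 : ℝ≥0) : ℝ)) atTop (𝓝 0) := by
    have h1 : Tendsto (fun k : ℕ => ENNReal.ofReal ((1 / 2 : ℝ) ^ k)) atTop (𝓝 0) := by
      have h2 := ENNReal.tendsto_ofReal
        (tendsto_pow_atTop_nhds_zero_of_lt_one (r := (1 / 2 : ℝ)) (by norm_num) (by norm_num))
      simpa using h2
    refine tendsto_of_tendsto_of_tendsto_of_le_of_le' tendsto_const_nhds h1
      (Eventually.of_forall fun _ => zero_le) ?_
    filter_upwards [eventually_ge_atTop K] with k hk
    calc ∑ i : Adm L K k, Metric.ediam (Cyl k i.1.1 i.1.2) ^ ((3 / 4 : ℝ≥0) : ℝ)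
        ≤ ∑ _i : Adm L K k, (ENNReal.ofReal (((1 / 2 : ℝ) ^ (3 * h (k + 1))) ^ (3 / 4 : ℝ))) := by
          refine Finset.sum_le_sum fun i _ => ?_
          refine (ENNReal.rpow_le_rpow (ediam_Cyl k _ _) (NNReal.coe_nonneg _)).trans (le_of_eq ?_)
          rw [ENNReal.ofReal_rpow_of_nonneg (by positivity) (NNReal.coe_nonneg _)]
          norm_num
      _ = ENNReal.ofReal ((Fintype.card (Adm L K k) : ℝ) *
            ((1 / 2 : ℝ) ^ (3 * h (k + 1))) ^ (3 / 4 : ℝ)) := by
          rw [Finset.sum_const, Finset.card_univ, nsmul_eq_mul, ENNReal.ofReal_mul (by positivity),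
            ENNReal.ofReal_natCast]
      _ ≤ ENNReal.ofReal ((1 / 2 : ℝ) ^ k) := by
          refine ENNReal.ofReal_le_ofReal (le_trans ?_ (sum_bound k))
          exact mul_le_mul_of_nonneg_right (card_Adm L K k hk) (by positivity)
  rw [hz.liminf_eq] at hmain
  exact (lt_of_le_of_lt hmain (by norm_num)).ne

/-- **Disproof of Q1, in dimension `2`.**  There is a null sequence `a` in `ℝ²` such that every
`L ∈ ℝ²` is the sum of a series `∑ ± a_n`, but `E_L` has Hausdorff dimension at most `3/4` for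
every `L`. -/
theorem result : ∃ a : ℕ → (Fin 2 → ℝ), Tendsto a atTop (𝓝 0) ∧
    (∀ L : Fin 2 → ℝ, (Attain a L).Nonempty) ∧
    ∀ L : Fin 2 → ℝ, dimH (Attain a L) ≤ 3 / 4 := by
  refine ⟨a, tendsto_a, fun L => ⟨eps L, eps_mem L⟩, fun L => ?_⟩
  have h1 : dimH (⋃ K, EK L K) ≤ ((3 / 4 : ℝ≥0) : ℝ≥0∞) := by
    rw [dimH_iUnion]
    exact iSup_le fun K => dimH_EK L K
  have h2 : ((3 / 4 : ℝ≥0) : ℝ≥0∞) = 3 / 4 := by
    rw [ENNReal.coe_div (by norm_num)]
    norm_num
  rw [← h2]
  exact (dimH_mono (attain_subset L)).trans h1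

end Pool.Agent.Results.MP_b48a23_an.SmallDimension
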